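import Pool.Agent.U922.CG.Sets

/-!
# All closed sets of dimension at most one (helper922)
-/

set_option autoImplicit false

namespace Pool.Agent.U922.CG

open MvPolynomial Height AdmissibleAbsValues Pool.Agent.R847.HG

attribute [local instance] MvPolynomial.gradedAlgebra

variable {K : Type} [Field K]

/-- the forms in an ideal -/
def Hom {σ : Type} (p : Ideal (MvPolynomial σ K)) : Set (MvPolynomial σ K) :=
  {g | g ∈ p ∧ ∃ e : ℕ, g.IsHomogeneous e}

/-- the minimal primes over a homogeneous ideal are homogeneous -/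
lemma span_Hom {σ : Type} {S : Set (MvPolynomial σ K)} (hS : ∀ g ∈ S, ∃ e : ℕ, g.IsHomogeneous e)
    {p : Ideal (MvPolynomial σ K)} (hp : p ∈ (Ideal.span S).minimalPrimes) : Ideal.span (Hom p) = p := by
  have hprime : p.IsPrime := hp.1.1
  have h1 : ((Ideal.homogeneousCore (homogeneousSubmodule σ K) p).toIdeal).IsPrime :=
    Ideal.IsPrime.homogeneousCore hprime
  have h2 : (Ideal.homogeneousCore (homogeneousSubmodule σ K) p).toIdeal ≤ Ideal.span (Hom p) := by
    change Ideal.homogeneousCore' (homogeneousSubmodule σ K) p ≤ _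
    unfold Ideal.homogeneousCore'
    rw [Ideal.span_le]
    rintro g ⟨⟨g', i, hi⟩, hg, rfl⟩
    exact Ideal.subset_span ⟨hg, i, hi⟩
  have h3 : Ideal.span S ≤ (Ideal.homogeneousCore (homogeneousSubmodule σ K) p).toIdeal := by
    rw [Ideal.span_le]
    intro g hg
    obtain ⟨e, he⟩ := hS g hg
    exact Ideal.mem_homogeneousCore_of_homogeneous_of_mem ⟨e, he⟩ (hp.1.2 (Ideal.subset_span hg))
  have h4 : p ≤ (Ideal.homogeneousCore (homogeneousSubmodule σ K) p).toIdeal :=
    hp.2 ⟨h1, h3⟩ (Ideal.toIdeal_homogeneousCore_le _ p)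
  apply le_antisymm
  · rw [Ideal.span_le]
    intro g hg
    exact hg.1
  · exact h4.trans h2

/-- the common zeros of `S`, in terms of the minimal primes -/
lemma zero_iff {σ : Type} [Finite σ] {S : Set (MvPolynomial σ K)} (hS : ∀ g ∈ S, ∃ e : ℕ, g.IsHomogeneous e)
    (x : σ → K) : (∀ g ∈ S, aeval x g = 0) ↔
      ∃ p ∈ (Ideal.span S).minimalPrimes, ∀ g ∈ Hom p, aeval x g = 0 := by
  constructor
  · intro h
    set J : Ideal (MvPolynomial σ K) := RingHom.ker (aeval x : MvPolynomial σ K →ₐ[K] K) with hJ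
    have h1 : Ideal.span S ≤ J := by
      rw [Ideal.span_le]
      intro g hg
      exact h g hg
    have hJp : J.IsPrime := RingHom.ker_isPrime _
    obtain ⟨p, hp, hpJ⟩ := Ideal.exists_minimalPrimes_le h1
    exact ⟨p, hp, fun g hg => hpJ hg.1⟩
  · rintro ⟨p, hp, h⟩ g hg
    have h1 : g ∈ p := hp.1.2 (Ideal.subset_span hg)
    exact h g ⟨h1, hS g hg⟩

lemma RS_union {N : ℕ} (f : Fin (N + 1) → MvPolynomial (Fin (N + 1)) K)
    {S : Set (MvPolynomial (Fin (N + 1)) K)} (hS : ∀ g ∈ S, ∃ e : ℕ, g.IsHomogeneous e)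
    (s : Finset (Ideal (MvPolynomial (Fin (N + 1)) K))) (hs : ∀ p, p ∈ s ↔ p ∈ (Ideal.span S).minimalPrimes)
    (a : Fin (N + 1) → K) : RS f S a = ⋃ p ∈ s, RS f (Hom p) a := by
  ext n
  simp only [RS, Set.mem_ofPred_eq, Set.mem_iUnion]
  rw [zero_iff hS]
  constructor
  · rintro ⟨p, hp, h⟩
    exact ⟨p, (hs p).2 hp, h⟩
  · rintro ⟨p, hp, h⟩
    exact ⟨p, (hs p).1 hp, h⟩

lemma RS_smul {N d : ℕ} {f : Fin (N + 1) → MvPolynomial (Fin (N + 1)) K} (hf : ∀ i, (f i).IsHomogeneous d)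
    {S : Set (MvPolynomial (Fin (N + 1)) K)} (hS : ∀ g ∈ S, ∃ e : ℕ, g.IsHomogeneous e) {c : K} (hc : c ≠ 0)
    (a : Fin (N + 1) → K) : RS f S (c • a) = RS f S a := by
  ext n
  simp only [RS, Set.mem_ofPred_eq]
  rw [iter_smul f hf]
  have e1 : (c ^ d ^ n • (stepR f)^[n] a) = fun l => c ^ d ^ n * (stepR f)^[n] a l := rfl
  rw [e1]
  constructor
  · intro h g hg
    obtain ⟨e, he⟩ := hS g hg
    have h2 := h g hg
    rw [aeval_scale g e he] at h2
    exact (mul_eq_zero.1 h2).resolve_left (pow_ne_zero _ (pow_ne_zero _ hc))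
  · intro h g hg
    obtain ⟨e, he⟩ := hS g hg
    rw [aeval_scale g e he, h g hg, mul_zero]

/-- the closed set is invariant: the return sets are unions of finitely many infinite progressions -/
theorem inv_IAP {N : ℕ} {f : Fin (N + 1) → MvPolynomial (Fin (N + 1)) K}
    {S : Set (MvPolynomial (Fin (N + 1)) K)} (h : Inv f S) (a : Fin (N + 1) → K) : IAP (RS f S a) := by
  obtain ⟨k, hk, hA⟩ := h
  apply IAP_of_upward _ k hk
  intro t ht g hg
  obtain ⟨ev, hev⟩ := exists_ev S ((stepR f)^[t] a) ht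
  have h1 := congrArg ev (hA g hg)
  rw [comp_aeval_apply, ← stepR_map f ev _ k, map_zero] at h1
  have h2 : (fun l => ev (Ideal.Quotient.mk (Ideal.span S) (X l : MvPolynomial (Fin (N + 1)) K))) =
    (stepR f)^[t] a := funext hev
  rw [h2, ← Function.iterate_add_apply, Nat.add_comm k t] at h1
  exact h1

variable [AdmissibleAbsValues K]

/-- **closed sets of dimension at most one, all starting points with coordinates in `K`** -/
theorem curves_K [Northcott (mulHeight₁ (K := K))] [Infinite K] {N d : ℕ}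
    (hd : 2 ≤ d) (f : Fin (N + 1) → MvPolynomial (Fin (N + 1)) K)
    (hf : ∀ i, (f i).IsHomogeneous d)
    (h0 : ∀ x : Fin (N + 1) → AlgebraicClosure K, (∀ i, aeval x (f i) = 0) → x = 0)
    (S : Set (MvPolynomial (Fin (N + 1)) K)) (hS : ∀ g ∈ S, ∃ e : ℕ, g.IsHomogeneous e)
    (htr : Algebra.trdeg K (MvPolynomial (Fin (N + 1)) K ⧸ Ideal.span S) ≤ 2) :
    ∃ B : ℕ, ∀ a : Fin (N + 1) → K, a ≠ 0 → Dec B (RS f S a) := by
  classical
  obtain ⟨𝔅, c, n₀, hc, hdich⟩ := growth_unif hd f hf h0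
  -- the exceptional starting points
  have hex : ∀ b : Fin (N + 1) → K, ∃ B : ℕ, PP f b → Dec B (RS f S b) := by
    intro b
    by_cases hb : PP f b
    · obtain ⟨B, hB⟩ := Dec_FAP (pp_FAP hf hS hb)
      exact ⟨B, fun _ => hB⟩
    · exact ⟨0, fun h => absurd h hb⟩
  choose Bb hBb using hex
  -- the components
  have hfin : (Ideal.span S).minimalPrimes.Finite := Ideal.finite_minimalPrimes_of_isNoetherianRing _ _
  set s := hfin.toFinset with hs
  have hmem : ∀ p, p ∈ s ↔ p ∈ (Ideal.span S).minimalPrimes := fun p => Set.Finite.mem_toFinset _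
  have hcomp : ∀ p : Ideal (MvPolynomial (Fin (N + 1)) K), ∃ B : ℕ, p ∈ s → ∀ a : Fin (N + 1) → K, a ≠ 0 →
      (∀ n, n₀ ≤ n → c * d ^ n ≤ logHeight ((stepR f)^[n] a)) → Dec B (RS f (Hom p) a) := by
    intro p
    by_cases hp : p ∈ s
    · have hp' := (hmem p).1 hp
      have hspan := span_Hom hS hp'
      by_cases hinv : Inv f (Hom p)
      · exact ⟨0, fun _ a _ _ => Dec_IAP (inv_IAP hinv a)⟩
      · have hprime : (Ideal.span (Hom p)).IsPrime := by rw [hspan]; exact hp'.1.1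
        have htr' : Algebra.trdeg K (MvPolynomial (Fin (N + 1)) K ⧸ Ideal.span (Hom p)) ≤ 2 := by
          have h1 : Ideal.span S ≤ Ideal.span (Hom p) := by rw [hspan]; exact hp'.1.2
          exact (trdeg_le_of_surjective (Ideal.Quotient.factorₐ K h1)
            (Ideal.Quotient.factor_surjective h1)).trans htr
        obtain ⟨B, hB⟩ := gap_unif hd f hf h0 (Hom p) (fun g hg => hg.2) hprime htr' hinv hc n₀
        exact ⟨B + 1, fun _ a ha hgr => Dec_gap (by omega) (gap_mono (by omega) (hB a ha hgr))⟩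
    · exact ⟨0, fun h => absurd h hp⟩
  choose Bp hBp using hcomp
  refine ⟨𝔅.sup Bb + ∑ p ∈ s, Bp p, fun a ha => ?_⟩
  rcases hdich a ha with ⟨b, hb, hpp, e, he, rfl⟩ | hgr
  · rw [RS_smul hf hS he]
    exact Dec_mono ((Finset.le_sup (f := Bb) hb).trans (by omega)) (hBb b hpp)
  · rw [RS_union f hS s hmem a]
    exact Dec_mono (by omega) (Dec_biUnion s Bp _ fun p hp => hBp p hp a ha hgr)

end Pool.Agent.U922.CG
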