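import Pool.Agent.U922.CG.Comp

/-!
# Descent of closed sets to a subfield (helper922)
-/

set_option autoImplicit false

namespace Pool.Agent.U922.CG

open MvPolynomial

variable {F L σ : Type} [Field F] [Field L] [Algebra F L]

/-- a linear functional applied to the coefficients -/
noncomputable def cw (ℓ : L →ₗ[F] F) (P : MvPolynomial σ L) : MvPolynomial σ F :=
  ∑ μ ∈ P.support, monomial μ (ℓ (P.coeff μ))

lemma coeff_cw (ℓ : L →ₗ[F] F) (P : MvPolynomial σ L) (μ : σ →₀ ℕ) : (cw ℓ P).coeff μ = ℓ (P.coeff μ) := by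
  classical
  unfold cw
  rw [coeff_sum]
  simp only [coeff_monomial]
  rw [Finset.sum_ite_eq']
  split_ifs with h
  · rfl
  · rw [notMem_support_iff.1 h, map_zero]

lemma eval_cw (ℓ : L →ₗ[F] F) (P : MvPolynomial σ L) (y : σ → F) :
    eval y (cw ℓ P) = ℓ (eval (fun i => algebraMap F L (y i)) P) := by
  classical
  unfold cw
  rw [map_sum, eval_eq, map_sum]
  apply Finset.sum_congr rfl
  intro μ _
  rw [eval_monomial]
  have h1 : P.coeff μ * ∏ i ∈ μ.support, (algebraMap F L (y i)) ^ μ i = (∏ i ∈ μ.support, y i ^ μ i) • P.coeff μ := by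
    rw [Algebra.smul_def, map_prod, mul_comm]
    simp only [map_pow]
  rw [h1, map_smul, smul_eq_mul, mul_comm]
  rfl

lemma hom_cw (ℓ : L →ₗ[F] F) {P : MvPolynomial σ L} {e : ℕ} (hP : P.IsHomogeneous e) : (cw ℓ P).IsHomogeneous e := by
  intro μ hμ
  rw [coeff_cw] at hμ
  apply hP
  intro h
  rw [h, map_zero] at hμ
  exact hμ rfl

lemma exists_functional {w : L} (hw : w ≠ 0) : ∃ ℓ : L →ₗ[F] F, ℓ w ≠ 0 := by
  by_contra h
  push Not at h
  exact hw ((Module.forall_dual_apply_eq_zero_iff F w).1 h)

/-- the forms over `F` which vanish at all points over `F` of the closed set -/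
def JF (F : Type) [Field F] [Algebra F L] (S : Set (MvPolynomial σ L)) : Set (MvPolynomial σ F) :=
  {g | (∃ e : ℕ, g.IsHomogeneous e) ∧
    ∀ y : σ → F, (∀ s ∈ S, eval (fun i => algebraMap F L (y i)) s = 0) → eval y g = 0}

lemma JF_iff {S : Set (MvPolynomial σ L)} (hS : ∀ g ∈ S, ∃ e : ℕ, g.IsHomogeneous e) (y : σ → F) :
    (∀ g ∈ JF F S, eval y g = 0) ↔ ∀ s ∈ S, eval (fun i => algebraMap F L (y i)) s = 0 := by
  constructor
  · intro h s hs
    by_contra hne
    obtain ⟨ℓ, hℓ⟩ := exists_functional (F := F) hne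
    obtain ⟨e, he⟩ := hS s hs
    have h1 : cw ℓ s ∈ JF F S := by
      refine ⟨⟨e, hom_cw ℓ he⟩, fun y' hy' => ?_⟩
      rw [eval_cw, hy' s hs, map_zero]
    have h2 := h _ h1
    rw [eval_cw] at h2
    exact hℓ h2
  · intro h g hg
    exact hg.2 y h

/-- a polynomial which vanishes on the cone of the points over `F` -/
lemma mem_span_JF [Infinite F] [Finite σ] {S : Set (MvPolynomial σ L)} (hS : ∀ g ∈ S, ∃ e : ℕ, g.IsHomogeneous e)
    (R : MvPolynomial σ F)
    (hR : ∀ y : σ → F, (∀ s ∈ S, eval (fun i => algebraMap F L (y i)) s = 0) → eval y R = 0) :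
    R ∈ Ideal.span (JF F S) := by
  classical
  rw [← sum_homogeneousComponent R]
  apply Ideal.sum_mem
  intro e _
  apply Ideal.subset_span
  refine ⟨⟨e, homogeneousComponent_isHomogeneous e R⟩, fun y hy => ?_⟩
  by_cases he : e ∈ Finset.range (R.totalDegree + 1)
  · -- the polynomial `t ↦ R (t y)`
    set p : Polynomial F := ∑ i ∈ Finset.range (R.totalDegree + 1),
      Polynomial.monomial i (eval y (homogeneousComponent i R)) with hp
    have hp0 : p = 0 := by
      apply Polynomial.funext
      intro t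
      rw [Polynomial.eval_zero]
      have h1 : eval (fun l => t * y l) R = 0 := by
        apply hR
        intro s hs
        obtain ⟨e', he'⟩ := hS s hs
        have h2 : (fun i => algebraMap F L (t * y i)) = fun i => algebraMap F L t * algebraMap F L (y i) := by
          funext i
          rw [map_mul]
        rw [h2]
        have h3 : eval (fun i => algebraMap F L t * algebraMap F L (y i)) s =
            algebraMap F L t ^ e' * eval (fun i => algebraMap F L (y i)) s :=
          Pool.Agent.R847.HG.aeval_scale s e' he' (algebraMap F L t) (fun i => algebraMap F L (y i))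
        rw [h3, hy s hs, mul_zero]
      rw [← h1]
      conv_rhs => rw [← sum_homogeneousComponent R]
      rw [hp, Polynomial.eval_finsetSum, map_sum]
      apply Finset.sum_congr rfl
      intro i _
      rw [Polynomial.eval_monomial]
      have h3 : eval (fun l => t * y l) (homogeneousComponent i R) = t ^ i * eval y (homogeneousComponent i R) :=
        Pool.Agent.R847.HG.aeval_scale (homogeneousComponent i R) i
          (homogeneousComponent_isHomogeneous i R) t y
      rw [h3, mul_comm]
    have h4 : p.coeff e = eval y (homogeneousComponent e R) := by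
      rw [hp, Polynomial.finsetSum_coeff]
      simp only [Polynomial.coeff_monomial]
      rw [Finset.sum_ite_eq', if_pos he]
    rw [← h4, hp0, Polynomial.coeff_zero]
  · rw [homogeneousComponent_eq_zero e R (by rw [Finset.mem_range] at he; omega), map_zero]

lemma trdeg_le_two {A : Type} [CommRing A] [Algebra F A]
    (h : ∀ x : Fin 3 → A, ¬ AlgebraicIndependent F x) : Algebra.trdeg F A ≤ 2 := by
  unfold Algebra.trdeg
  apply ciSup_le'
  rintro ⟨s, hs⟩
  by_contra hcon
  rw [not_le] at hcon
  have h3 : (3 : Cardinal) ≤ Cardinal.mk s := by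
    have := Cardinal.add_one_le_of_lt hcon
    have e : (2 : Cardinal) + 1 = 3 := by norm_num
    rwa [e] at this
  have h4 : Cardinal.mk (Fin 3) ≤ Cardinal.mk s := by
    rw [Cardinal.mk_fin]
    exact_mod_cast h3
  obtain ⟨g⟩ := (Cardinal.le_def _ _).1 h4
  exact h (fun i => (g i : A)) (AlgebraicIndependent.comp hs g g.injective)

lemma not_indep_of_trdeg {A : Type} [CommRing A] [Algebra L A] (h : Algebra.trdeg L A ≤ 2)
    (v : Fin 3 → A) : ∃ P : MvPolynomial (Fin 3) L, P ≠ 0 ∧ aeval v P = 0 := by
  have hdep : ¬ AlgebraicIndependent L v := by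
    intro h'
    have h1 := h'.cardinalMk_le_trdeg.trans h
    rw [Cardinal.mk_fin] at h1
    exact absurd h1 (by norm_num)
  rw [algebraicIndependent_iff] at hdep
  push Not at hdep
  obtain ⟨P, hP, hP0⟩ := hdep
  exact ⟨P, hP0, hP⟩

/-- the dimension does not increase -/
theorem trdeg_JF [Infinite F] [Finite σ] {S : Set (MvPolynomial σ L)} (hS : ∀ g ∈ S, ∃ e : ℕ, g.IsHomogeneous e)
    (htr : Algebra.trdeg L (MvPolynomial σ L ⧸ Ideal.span S) ≤ 2) :
    Algebra.trdeg F (MvPolynomial σ F ⧸ Ideal.span (JF F S)) ≤ 2 := by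
  classical
  apply trdeg_le_two
  intro x hx
  have hu : ∀ i, ∃ u : MvPolynomial σ F, Ideal.Quotient.mk (Ideal.span (JF F S)) u = x i :=
    fun i => Ideal.Quotient.mk_surjective (x i)
  choose u hu using hu
  set U : Fin 3 → MvPolynomial σ L := fun i => map (algebraMap F L) (u i) with hU
  obtain ⟨P, hP, hP0⟩ := not_indep_of_trdeg htr fun i => Ideal.Quotient.mk (Ideal.span S) (U i)
  have hPU : aeval U P ∈ Ideal.span S := by
    rw [← Ideal.Quotient.eq_zero_iff_mem]
    have h1 := comp_aeval_apply (Ideal.Quotient.mkₐ L (Ideal.span S)) (f := U) P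
    have h2 : (Ideal.Quotient.mkₐ L (Ideal.span S)) (aeval U P) =
      Ideal.Quotient.mk (Ideal.span S) (aeval U P) := rfl
    rw [← h2, h1]
    exact hP0
  obtain ⟨μ, hμ⟩ := MvPolynomial.ne_zero_iff.1 hP
  obtain ⟨ℓ, hℓ⟩ := exists_functional (F := F) hμ
  have hQ0 : cw ℓ P ≠ 0 := by
    rw [MvPolynomial.ne_zero_iff]
    exact ⟨μ, by rw [coeff_cw]; exact hℓ⟩
  rw [algebraicIndependent_iff] at hx
  apply hQ0
  apply hx
  have h3 : aeval u (cw ℓ P) ∈ Ideal.span (JF F S) := by
    apply mem_span_JF hS
    intro y hy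
    have h4 : eval y (aeval u (cw ℓ P)) = eval (fun i => eval y (u i)) (cw ℓ P) := by
      exact comp_aeval_apply (aeval y : MvPolynomial σ F →ₐ[F] F) (f := u) (cw ℓ P)
    rw [h4, eval_cw]
    have h5 : eval (fun i => algebraMap F L (eval y (u i))) P = 0 := by
      have h6 : (fun i => algebraMap F L (eval y (u i))) = fun i => eval (fun j => algebraMap F L (y j)) (U i) := by
        funext i
        rw [hU, eval_map]
        exact eval₂_comp (algebraMap F L) y (u i)
      rw [h6]
      have h7 : eval (fun j => algebraMap F L (y j)) (aeval U P) = 0 := by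
        have h8 : Ideal.span S ≤ RingHom.ker (eval fun j => algebraMap F L (y j)) := by
          rw [Ideal.span_le]
          intro s hs
          exact hy s hs
        exact h8 hPU
      have h9 : eval (fun j => algebraMap F L (y j)) (aeval U P) =
          eval (fun i => eval (fun j => algebraMap F L (y j)) (U i)) P :=
        comp_aeval_apply (aeval (fun j => algebraMap F L (y j)) : MvPolynomial σ L →ₐ[L] L) (f := U) P
      rw [← h9]
      exact h7
    rw [h5, map_zero]
  have h10 := comp_aeval_apply (Ideal.Quotient.mkₐ F (Ideal.span (JF F S))) (f := u) (cw ℓ P)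
  have h11 : (fun i => (Ideal.Quotient.mkₐ F (Ideal.span (JF F S))) (u i)) = x := funext hu
  rw [h11] at h10
  rw [← h10]
  exact Ideal.Quotient.eq_zero_iff_mem.2 h3

end Pool.Agent.U922.CG
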