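import Mathlib

/-!
# Return sets of endomorphisms of projective space: definitions (helper922)
-/

set_option autoImplicit false

open MvPolynomial

namespace Pool.Agent.U922.CG

/-- The self-map of `ℂ^{N+1}` given by `N + 1` polynomials. -/
noncomputable def coneMap {N : ℕ} (f : Fin (N + 1) → MvPolynomial (Fin (N + 1)) ℂ)
    (x : Fin (N + 1) → ℂ) : Fin (N + 1) → ℂ :=
  fun i => eval x (f i)

/-- The return set of the point `[a]` to the closed set of the common zeros of the members of `S`. -/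
def returnSet {N : ℕ} (f : Fin (N + 1) → MvPolynomial (Fin (N + 1)) ℂ)
    (S : Set (MvPolynomial (Fin (N + 1)) ℂ)) (a : Fin (N + 1) → ℂ) : Set ℕ :=
  {n | ∀ g ∈ S, eval ((coneMap f)^[n] a) g = 0}

/-- `A` is a union of finitely many infinite arithmetic progressions `{k m + r : m ≥ 0}`, `k > 0`. -/
def IAP (A : Set ℕ) : Prop :=
  ∃ T : Finset (ℕ × ℕ), (∀ q ∈ T, 0 < q.1) ∧ A = {n : ℕ | ∃ q ∈ T, ∃ m : ℕ, n = q.1 * m + q.2}

/-- The gap condition: of two elements of `Z` the larger one is at least twice the smaller one, up to `B`. -/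
def Gap (B : ℕ) (Z : Set ℕ) : Prop := ∀ m ∈ Z, ∀ n ∈ Z, m < n → 2 * m ≤ n + B

end Pool.Agent.U922.CG
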