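import Pool.Agent.U922.CG.Cx

/-!
# Curves in complex projective space, starting points over a number field (helper922)
-/

set_option autoImplicit false

namespace Pool.Agent.U922.CG

open MvPolynomial Pool.Agent.R847.HG

/-- **closed sets of dimension at most one in complex projective space** -/
theorem curves_C {N d : ℕ} (hd : 2 ≤ d) (f : Fin (N + 1) → MvPolynomial (Fin (N + 1)) ℂ)
    (hf : ∀ i, (f i).IsHomogeneous d)
    (h0 : ∀ x : Fin (N + 1) → ℂ, (∀ i, eval x (f i) = 0) → x = 0)
    (S : Set (MvPolynomial (Fin (N + 1)) ℂ)) (hS : ∀ g ∈ S, ∃ e : ℕ, g.IsHomogeneous e)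
    (htr : Algebra.trdeg ℂ (MvPolynomial (Fin (N + 1)) ℂ ⧸ Ideal.span S) ≤ 2)
    (E : IntermediateField ℚ ℂ) [FiniteDimensional ℚ E] (hE : ∀ i μ, coeff μ (f i) ∈ E) :
    ∃ B : ℕ, ∀ a : Fin (N + 1) → ℂ, a ≠ 0 → (∀ i, a i ∈ E) → Dec B (returnSet f S a) := by
  classical
  have : NumberField E := { to_charZero := inferInstance, to_finiteDimensional := inferInstance }
  -- the forms over `E`
  have hlift : ∀ i, ∃ g : MvPolynomial (Fin (N + 1)) E, map (algebraMap E ℂ) g = f i := by
    intro i
    have h1 : f i ∈ Set.range (map (algebraMap E ℂ)) := by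
      rw [mem_range_map_iff_coeffs_subset]
      intro c hc
      obtain ⟨μ, -, rfl⟩ := mem_coeffs_iff.1 hc
      exact ⟨⟨_, hE i μ⟩, rfl⟩
    exact h1
  choose g hg using hlift
  have hinj : Function.Injective (algebraMap E ℂ) := (algebraMap E ℂ).injective
  have hgh : ∀ i, (g i).IsHomogeneous d := by
    intro i μ hμ
    have h1 : coeff μ (f i) ≠ 0 := by
      rw [← hg i, coeff_map]
      intro h
      exact hμ ((map_eq_zero_iff _ hinj).1 h)
    exact hf i h1
  have hg0 : ∀ x : Fin (N + 1) → AlgebraicClosure E, (∀ i, aeval x (g i) = 0) → x = 0 := by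
    intro x hx
    let ψ : AlgebraicClosure E →ₐ[E] ℂ := IsAlgClosed.lift
    have h1 : (fun j => ψ (x j)) = 0 := by
      apply h0
      intro i
      rw [← hg i, eval_map]
      have h2 := comp_aeval_apply ψ (f := x) (g i)
      rw [hx i, map_zero] at h2
      exact h2.symm
    funext j
    have h3 := congrFun h1 j
    exact (map_eq_zero_iff ψ ψ.injective).1 h3
  obtain ⟨B, hB⟩ := curves_K hd g hgh hg0 (JF E S) (fun s hs => hs.1) (trdeg_JF hS htr)
  refine ⟨B, fun a ha haE => ?_⟩
  set a' : Fin (N + 1) → E := fun i => ⟨a i, haE i⟩ with ha'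
  have ha0 : a' ≠ 0 := by
    intro h
    apply ha
    funext i
    have h1 := congrFun h i
    exact congrArg (fun z : E => (z : ℂ)) h1
  have hiter : ∀ n, (coneMap f)^[n] a = fun i => algebraMap E ℂ ((stepR g)^[n] a' i) := by
    intro n
    induction n with
    | zero => rfl
    | succ n ih =>
      rw [Function.iterate_succ_apply', Function.iterate_succ_apply', ih]
      funext i
      unfold coneMap stepR
      rw [← hg i, eval_map]
      exact (eval₂_comp (algebraMap E ℂ) ((stepR g)^[n] a') (g i)).symm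
  have hset : returnSet f S a = RS g (JF E S) a' := by
    ext n
    unfold returnSet RS
    simp only [Set.mem_ofPred_eq]
    rw [hiter n]
    exact (JF_iff hS ((stepR g)^[n] a')).symm
  rw [hset]
  exact hB a' ha0

end Pool.Agent.U922.CG
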