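import Pool.Agent.U922.CG.Unif

/-!
# Sets of natural numbers: progressions and gaps (helper922)
-/

set_option autoImplicit false

namespace Pool.Agent.U922.CG

/-- `A` is a union of finitely many infinite arithmetic progressions and of at most `B` sets with the gap condition -/
def Dec (B : ℕ) (A : Set ℕ) : Prop :=
  ∃ (U : Set ℕ) (𝒢 : Finset (Set ℕ)), IAP U ∧ 𝒢.card ≤ B ∧ (∀ G ∈ 𝒢, Gap B G) ∧ A = U ∪ ⋃ G ∈ 𝒢, G

lemma IAP_empty : IAP ∅ := ⟨∅, by simp, by simp⟩

lemma IAP_union {A A' : Set ℕ} (h : IAP A) (h' : IAP A') : IAP (A ∪ A') := by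
  classical
  obtain ⟨T, hT, rfl⟩ := h
  obtain ⟨T', hT', rfl⟩ := h'
  refine ⟨T ∪ T', fun q hq => ?_, ?_⟩
  · rcases Finset.mem_union.1 hq with h | h
    · exact hT q h
    · exact hT' q h
  · ext n
    simp only [Set.mem_union, Set.mem_ofPred_eq, Finset.mem_union]
    constructor
    · rintro (⟨q, hq, h⟩ | ⟨q, hq, h⟩)
      · exact ⟨q, Or.inl hq, h⟩
      · exact ⟨q, Or.inr hq, h⟩
    · rintro ⟨q, hq | hq, h⟩
      · exact Or.inl ⟨q, hq, h⟩
      · exact Or.inr ⟨q, hq, h⟩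

lemma gap_mono {B B' : ℕ} (h : B ≤ B') {Z : Set ℕ} (hZ : Gap B Z) : Gap B' Z := fun m hm n hn hmn => by
  have := hZ m hm n hn hmn
  omega

lemma Dec_mono {B B' : ℕ} (h : B ≤ B') {A : Set ℕ} (hA : Dec B A) : Dec B' A := by
  obtain ⟨U, 𝒢, h1, h2, h3, h4⟩ := hA
  exact ⟨U, 𝒢, h1, h2.trans h, fun G hG => gap_mono h (h3 G hG), h4⟩

lemma Dec_union {B B' : ℕ} {A A' : Set ℕ} (hA : Dec B A) (hA' : Dec B' A') : Dec (B + B') (A ∪ A') := by
  classical
  obtain ⟨U, 𝒢, h1, h2, h3, h4⟩ := hA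
  obtain ⟨U', 𝒢', h1', h2', h3', h4'⟩ := hA'
  refine ⟨U ∪ U', 𝒢 ∪ 𝒢', IAP_union h1 h1', (Finset.card_union_le _ _).trans (by omega), fun G hG => ?_, ?_⟩
  · rcases Finset.mem_union.1 hG with h | h
    · exact gap_mono (by omega) (h3 G h)
    · exact gap_mono (by omega) (h3' G h)
  · rw [h4, h4']
    ext n
    simp only [Set.mem_union, Set.mem_iUnion, Finset.mem_union]
    constructor
    · rintro ((h | ⟨G, hG, h⟩) | (h | ⟨G, hG, h⟩))
      · exact Or.inl (Or.inl h)
      · exact Or.inr ⟨G, Or.inl hG, h⟩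
      · exact Or.inl (Or.inr h)
      · exact Or.inr ⟨G, Or.inr hG, h⟩
    · rintro ((h | h) | ⟨G, hG | hG, h⟩)
      · exact Or.inl (Or.inl h)
      · exact Or.inr (Or.inl h)
      · exact Or.inl (Or.inr ⟨G, hG, h⟩)
      · exact Or.inr (Or.inr ⟨G, hG, h⟩)

lemma Dec_IAP {A : Set ℕ} (hA : IAP A) : Dec 0 A := ⟨A, ∅, hA, le_rfl, by simp, by simp⟩

lemma Dec_gap {B : ℕ} (hB : 1 ≤ B) {A : Set ℕ} (hA : Gap B A) : Dec B A :=
  ⟨∅, {A}, IAP_empty, by simpa using hB, by simpa using hA, by simp⟩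

lemma Dec_empty : Dec 0 ∅ := Dec_IAP IAP_empty

/-- finite unions -/
lemma Dec_biUnion {ι : Type} (s : Finset ι) (B : ι → ℕ) (A : ι → Set ℕ) (h : ∀ i ∈ s, Dec (B i) (A i)) :
    Dec (∑ i ∈ s, B i) (⋃ i ∈ s, A i) := by
  classical
  induction s using Finset.induction_on with
  | empty => simpa using Dec_empty
  | insert i s hi ih =>
    rw [Finset.sum_insert hi, Finset.set_biUnion_insert]
    exact Dec_union (h i (Finset.mem_insert_self _ _)) (ih fun j hj => h j (Finset.mem_insert_of_mem hj))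

/-- a finite union of arithmetic progressions -/
lemma Dec_FAP {A : Set ℕ} (hA : FAP A) : ∃ B, Dec B A := by
  classical
  obtain ⟨T, rfl⟩ := hA
  refine ⟨T.card, {n : ℕ | ∃ q ∈ T.filter (fun q => 0 < q.1), ∃ m : ℕ, n = q.1 * m + q.2},
    (T.filter (fun q => ¬ 0 < q.1)).image fun q => {q.2}, ⟨_, fun q hq => (Finset.mem_filter.1 hq).2, rfl⟩,
    Finset.card_image_le.trans (Finset.card_filter_le _ _), fun G hG => ?_, ?_⟩
  · obtain ⟨q, -, rfl⟩ := Finset.mem_image.1 hG
    intro m hm n hn hmn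
    rw [Set.mem_singleton_iff] at hm hn
    omega
  · ext n
    simp only [Set.mem_union, Set.mem_ofPred_eq, Set.mem_iUnion, Finset.mem_image, Finset.mem_filter]
    constructor
    · rintro ⟨q, hq, m, h⟩
      by_cases h0 : 0 < q.1
      · exact Or.inl ⟨q, ⟨hq, h0⟩, m, h⟩
      · refine Or.inr ⟨{q.2}, ⟨q, ⟨hq, h0⟩, rfl⟩, ?_⟩
        rw [Set.mem_singleton_iff, h, Nat.eq_zero_of_not_pos h0, zero_mul, zero_add]
    · rintro (⟨q, ⟨hq, h0⟩, m, h⟩ | ⟨G, ⟨q, ⟨hq, h0⟩, rfl⟩, h⟩)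
      · exact ⟨q, hq, m, h⟩
      · refine ⟨q, hq, 0, ?_⟩
        rw [Set.mem_singleton_iff] at h
        rw [h, mul_zero, zero_add]

/-- sets which are closed under adding `k` -/
lemma IAP_of_upward (Z : Set ℕ) (k : ℕ) (hk : 0 < k) (h : ∀ t ∈ Z, t + k ∈ Z) : IAP Z := by
  classical
  have hup : ∀ t ∈ Z, ∀ s, k * s + t ∈ Z := by
    intro t ht s
    induction s with
    | zero => simpa using ht
    | succ s ih =>
      have := h _ ih
      have e : k * (s + 1) + t = k * s + t + k := by ring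
      rwa [e]
  -- the smallest element in each class
  have hex : ∀ r : ℕ, ∃ s : ℕ, (∃ t, t ∈ Z ∧ t % k = r) → (s ∈ Z ∧ s % k = r ∧ ∀ t ∈ Z, t % k = r → s ≤ t) := by
    intro r
    by_cases hr : ∃ t, t ∈ Z ∧ t % k = r
    · refine ⟨Nat.find hr, fun _ => ⟨(Nat.find_spec hr).1, (Nat.find_spec hr).2, fun t ht htr => Nat.find_min' hr ⟨ht, htr⟩⟩⟩
    · exact ⟨0, fun h => absurd h hr⟩
  choose s hs using hex
  refine ⟨((Finset.range k).filter fun r => ∃ t, t ∈ Z ∧ t % k = r).image fun r => (k, s r), ?_, ?_⟩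
  · intro q hq
    obtain ⟨r, -, rfl⟩ := Finset.mem_image.1 hq
    exact hk
  · ext n
    simp only [Set.mem_ofPred_eq, Finset.mem_image, Finset.mem_filter, Finset.mem_range]
    constructor
    · intro hn
      have hr : ∃ t, t ∈ Z ∧ t % k = n % k := ⟨n, hn, rfl⟩
      obtain ⟨h1, h2, h3⟩ := hs (n % k) hr
      have h4 := h3 n hn rfl
      refine ⟨(k, s (n % k)), ⟨n % k, ⟨Nat.mod_lt _ hk, hr⟩, rfl⟩, (n - s (n % k)) / k, ?_⟩
      have h5 : k ∣ n - s (n % k) := (Nat.modEq_iff_dvd' h4).1 h2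
      simp only []
      rw [Nat.mul_div_cancel' h5]
      omega
    · rintro ⟨q, ⟨r, ⟨-, hr⟩, rfl⟩, m, rfl⟩
      exact hup _ (hs r hr).1 m

/-- the number of the elements of a set with the gap condition -/
lemma gap_count {B : ℕ} {Z : Set ℕ} (hZ : Gap B Z) (X : ℕ) :
    {n ∈ Z | n ≤ X}.ncard ≤ B + 2 + Nat.log 2 X := by
  classical
  have hfin : {n ∈ Z | n ≤ X}.Finite := (Set.finite_Iic X).subset fun n hn => hn.2
  set F : Finset ℕ := hfin.toFinset with hF
  rw [Set.ncard_eq_toFinset_card _ hfin]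
  have h1 : F = F.filter (fun n => n ≤ B) ∪ F.filter (fun n => ¬ n ≤ B) := (Finset.filter_union_filter_not_eq _ _).symm
  have h2 : (F.filter (fun n => n ≤ B)).card ≤ B + 1 := by
    calc (F.filter (fun n => n ≤ B)).card ≤ (Finset.range (B + 1)).card := by
          apply Finset.card_le_card
          intro n hn
          rw [Finset.mem_range]
          have := (Finset.mem_filter.1 hn).2
          omega
      _ = B + 1 := Finset.card_range _
  have h3 : (F.filter (fun n => ¬ n ≤ B)).card ≤ Nat.log 2 X + 1 := by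
    calc (F.filter (fun n => ¬ n ≤ B)).card ≤ (Finset.range (Nat.log 2 X + 1)).card := by
          apply Finset.card_le_card_of_injOn (fun n => Nat.log 2 (n - B))
          · intro n hn
            have hn' : n ∈ F.filter (fun n => ¬ n ≤ B) := hn
            rw [Finset.mem_filter, hF, Set.Finite.mem_toFinset] at hn'
            have h4 : n ≤ X := hn'.1.2
            have h5 : Nat.log 2 (n - B) ≤ Nat.log 2 X := Nat.log_mono_right (by omega)
            simp only [Finset.coe_range, Set.mem_Iio]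
            omega
          · have key : ∀ m n : ℕ, m ∈ Z → n ∈ Z → B < m → m < n → Nat.log 2 (m - B) < Nat.log 2 (n - B) := by
              intro m n hm hn hBm hmn
              have h4 := hZ m hm n hn hmn
              have h5 : (m - B) * 2 ≤ n - B := by omega
              have h6 : Nat.log 2 ((m - B) * 2) ≤ Nat.log 2 (n - B) := Nat.log_mono_right h5
              rw [Nat.log_mul_base (by norm_num) (by omega)] at h6
              omega
            intro m hm n hn hmn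
            have hm' : m ∈ F.filter (fun n => ¬ n ≤ B) := hm
            have hn' : n ∈ F.filter (fun n => ¬ n ≤ B) := hn
            rw [Finset.mem_filter, hF, Set.Finite.mem_toFinset] at hm' hn'
            simp only at hmn
            by_contra hne
            rcases lt_or_gt_of_ne hne with h | h
            · have := key m n hm'.1.1 hn'.1.1 (by omega) h
              omega
            · have := key n m hn'.1.1 hm'.1.1 (by omega) h
              omega
      _ = Nat.log 2 X + 1 := Finset.card_range _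
  calc F.card = (F.filter (fun n => n ≤ B) ∪ F.filter (fun n => ¬ n ≤ B)).card := by rw [← h1]
    _ ≤ (F.filter (fun n => n ≤ B)).card + (F.filter (fun n => ¬ n ≤ B)).card := Finset.card_union_le _ _
    _ ≤ _ := by omega

/-- counting -/
lemma Dec_count {B : ℕ} {A : Set ℕ} (hA : Dec B A) : ∃ U ⊆ A, IAP U ∧
    ∀ X : ℕ, {n ∈ A \ U | n ≤ X}.ncard ≤ B * (B + 2 + Nat.log 2 X) := by
  classical
  obtain ⟨U, 𝒢, h1, h2, h3, rfl⟩ := hA
  refine ⟨U, Set.subset_union_left, h1, fun X => ?_⟩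
  have hsub : {n ∈ (U ∪ ⋃ G ∈ 𝒢, G) \ U | n ≤ X} ⊆ ⋃ G ∈ 𝒢, {n ∈ G | n ≤ X} := by
    rintro n ⟨⟨h | h, hU⟩, hX⟩
    · exact absurd h hU
    · simp only [Set.mem_iUnion] at h ⊢
      obtain ⟨G, hG, h⟩ := h
      exact ⟨G, hG, h, hX⟩
  have hfin : ∀ G : Set ℕ, {n ∈ G | n ≤ X}.Finite := fun G => (Set.finite_Iic X).subset fun n hn => hn.2
  have hfin2 : (⋃ G ∈ 𝒢, {n ∈ G | n ≤ X}).Finite := Set.Finite.biUnion 𝒢.finite_toSet fun G _ => hfin G
  refine (Set.ncard_le_ncard hsub hfin2).trans ?_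
  have h4 : ∀ s : Finset (Set ℕ), (⋃ G ∈ s, {n ∈ G | n ≤ X}).ncard ≤ ∑ G ∈ s, {n ∈ G | n ≤ X}.ncard := by
    intro s
    induction s using Finset.induction_on with
    | empty => simp
    | insert G s hG ih =>
      rw [Finset.sum_insert hG, Finset.set_biUnion_insert]
      exact (Set.ncard_union_le _ _).trans (Nat.add_le_add_left ih _)
  refine (h4 𝒢).trans ?_
  calc ∑ G ∈ 𝒢, {n ∈ G | n ≤ X}.ncard ≤ ∑ _G ∈ 𝒢, (B + 2 + Nat.log 2 X) :=
        Finset.sum_le_sum fun G hG => gap_count (h3 G hG) X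
    _ = 𝒢.card * (B + 2 + Nat.log 2 X) := by rw [Finset.sum_const, smul_eq_mul]
    _ ≤ _ := Nat.mul_le_mul_right _ h2

end Pool.Agent.U922.CG
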