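import Pool.Agent.R847.HG.Curve
import Pool.Agent.U922.CG.Defs

/-!
# The height gap principle for curves, uniformly in the starting point (helper922)

The proofs follow `R847.HG.growth` and `R847.HG.curve_gap`.
-/

set_option autoImplicit false

namespace Pool.Agent.U922.CG

open MvPolynomial Height AdmissibleAbsValues Pool.Agent.R847.HG

variable {K : Type} [Field K]

/-- `[a]` is preperiodic -/
def PP {N : ℕ} (f : Fin (N + 1) → MvPolynomial (Fin (N + 1)) K) (a : Fin (N + 1) → K) : Prop :=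
  ∃ m n, m < n ∧ ∃ c : K, c ≠ 0 ∧ (stepR f)^[n] a = c • (stepR f)^[m] a

lemma iter_smul {N d : ℕ} (f : Fin (N + 1) → MvPolynomial (Fin (N + 1)) K) (hf : ∀ i, (f i).IsHomogeneous d)
    (c : K) (x : Fin (N + 1) → K) (n : ℕ) : (stepR f)^[n] (c • x) = c ^ d ^ n • (stepR f)^[n] x := by
  have h := stepR_scale f d hf c x n
  have e1 : (fun l => c * x l) = c • x := rfl
  rw [e1] at h
  rw [h]
  rfl

lemma PP_smul {N d : ℕ} {f : Fin (N + 1) → MvPolynomial (Fin (N + 1)) K} (hf : ∀ i, (f i).IsHomogeneous d)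
    {c : K} (hc : c ≠ 0) {x : Fin (N + 1) → K} (h : PP f x) : PP f (c • x) := by
  obtain ⟨m, n, hmn, e, he, h⟩ := h
  refine ⟨m, n, hmn, c ^ d ^ n * e * (c ^ d ^ m)⁻¹, ?_, ?_⟩
  · exact mul_ne_zero (mul_ne_zero (pow_ne_zero _ hc) he) (inv_ne_zero (pow_ne_zero _ hc))
  · rw [iter_smul f hf, iter_smul f hf, h, smul_smul, smul_smul, mul_assoc, inv_mul_cancel₀ (pow_ne_zero _ hc),
      mul_one]

variable [AdmissibleAbsValues K]

/-- growth of the heights along the orbits, uniformly in the starting point; up to scaling there are only finitely many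
other points -/
theorem growth_unif [Northcott (mulHeight₁ (K := K))] {N d : ℕ} (hd : 2 ≤ d)
    (f : Fin (N + 1) → MvPolynomial (Fin (N + 1)) K) (hf : ∀ i, (f i).IsHomogeneous d)
    (h0 : ∀ x : Fin (N + 1) → AlgebraicClosure K, (∀ i, aeval x (f i) = 0) → x = 0) :
    ∃ (𝔅 : Finset (Fin (N + 1) → K)) (c : ℝ) (n₀ : ℕ), 0 < c ∧ ∀ a : Fin (N + 1) → K, a ≠ 0 →
      (∃ b ∈ 𝔅, PP f b ∧ ∃ e : K, e ≠ 0 ∧ a = e • b) ∨
      ∀ n, n₀ ≤ n → c * d ^ n ≤ logHeight ((stepR f)^[n] a) := by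
  classical
  obtain ⟨C, hC⟩ := exists_lower f hf h0
  have hdR : (2 : ℝ) ≤ d := by exact_mod_cast hd
  set H : ℝ := Real.exp (|C| + 1) with hH
  have hfin : {z : K | mulHeight₁ z ≤ H}.Finite := Northcott.finite_le H
  set B : Set (Fin (N + 1) → K) := {b | ∀ j, b j ∈ {z : K | mulHeight₁ z ≤ H}} with hB
  have hBfin : B.Finite := Set.Finite.pi' (t := fun _ : Fin (N + 1) => {z : K | mulHeight₁ z ≤ H}) fun _ => hfin
  have hall : ∀ b : Fin (N + 1) → K, ∃ (c : ℝ) (n₀ : ℕ), 0 < c ∧ (b ≠ 0 → PP f b ∨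
      ∀ n, n₀ ≤ n → c * d ^ n ≤ logHeight ((stepR f)^[n] b)) := by
    intro b
    by_cases hb : b = 0
    · exact ⟨1, 0, one_pos, fun h => absurd hb h⟩
    · rcases growth hd f hf h0 b hb with h | ⟨c, n₀, hc, h⟩
      · exact ⟨1, 0, one_pos, fun _ => Or.inl h⟩
      · exact ⟨c, n₀, hc, fun _ => Or.inr h⟩
  choose cb nb hcb hb using hall
  set s : ℝ := 1 + ∑ b ∈ hBfin.toFinset, (cb b)⁻¹ with hs
  have hs0 : 0 < s := by
    have : 0 ≤ ∑ b ∈ hBfin.toFinset, (cb b)⁻¹ := Finset.sum_nonneg fun b _ => (inv_pos.2 (hcb b)).le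
    linarith
  have hsle : ∀ b ∈ hBfin.toFinset, s⁻¹ ≤ cb b := by
    intro b hb
    have h1 : (cb b)⁻¹ ≤ ∑ b ∈ hBfin.toFinset, (cb b)⁻¹ :=
      Finset.single_le_sum (f := fun b => (cb b)⁻¹) (fun b _ => (inv_pos.2 (hcb b)).le) hb
    have h2 : (cb b)⁻¹ ≤ s := by linarith
    exact inv_le_of_inv_le₀ (hcb b) h2
  have hs1 : s⁻¹ ≤ 1 := by
    apply inv_le_one_of_one_le₀
    have : 0 ≤ ∑ b ∈ hBfin.toFinset, (cb b)⁻¹ := Finset.sum_nonneg fun b _ => (inv_pos.2 (hcb b)).le
    linarith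
  refine ⟨hBfin.toFinset, s⁻¹, hBfin.toFinset.sup nb, inv_pos.2 hs0, fun a ha => ?_⟩
  by_cases hbig : logHeight a ≤ |C| + 1
  · -- small height: one of finitely many points
    obtain ⟨i, hi⟩ := Function.ne_iff.1 ha
    rw [Pi.zero_apply] at hi
    have hma : mulHeight a ≤ H := by
      rw [logHeight_eq_log_mulHeight] at hbig
      rwa [Real.log_le_iff_le_exp (mulHeight_pos _)] at hbig
    set b : Fin (N + 1) → K := (a i)⁻¹ • a with hbdef
    have hab : a = a i • b := by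
      rw [hbdef, smul_smul, mul_inv_cancel₀ hi, one_smul]
    have hbB : b ∈ hBfin.toFinset := by
      rw [Set.Finite.mem_toFinset]
      intro j
      have h1 := ratio_le a i j
      have h2 : b j = a j / a i := by
        rw [hbdef, Pi.smul_apply, smul_eq_mul, div_eq_inv_mul]
      rw [Set.mem_ofPred_eq, h2]
      exact h1.trans hma
    have hb0 : b ≠ 0 := by
      intro h
      rw [h, smul_zero] at hab
      exact ha hab
    rcases hb b hb0 with h | h
    · left
      exact ⟨b, hbB, h, a i, hi, hab⟩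
    · right
      intro n hn
      have hn' : nb b ≤ n := (Finset.le_sup (f := nb) hbB).trans hn
      have h1 := h n hn'
      have h2 : logHeight ((stepR f)^[n] a) = logHeight ((stepR f)^[n] b) := by
        conv_lhs => rw [hab]
        rw [iter_smul f hf, logHeight_eq_log_mulHeight, logHeight_eq_log_mulHeight,
          mulHeight_smul_eq_mulHeight _ (pow_ne_zero _ hi)]
      rw [h2]
      refine le_trans ?_ h1
      exact mul_le_mul_of_nonneg_right (hsle b hbB) (by positivity)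
  · right
    push Not at hbig
    have hgrow : ∀ m, (logHeight a - |C|) * d ^ m ≤ logHeight ((stepR f)^[m] a) - |C| := by
      intro m
      induction m with
      | zero => simp
      | succ m ih =>
        have h1 := hC ((stepR f)^[m] a)
        rw [← Function.iterate_succ_apply' (stepR f) m a] at h1
        have h2 : -|C| ≤ C := neg_abs_le C
        have h3 : 0 ≤ |C| := abs_nonneg C
        have h4 : (logHeight a - |C|) * d ^ (m + 1) ≤ (logHeight ((stepR f)^[m] a) - |C|) * d := by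
          rw [pow_succ, ← mul_assoc]
          exact mul_le_mul_of_nonneg_right ih (by linarith)
        nlinarith
    intro n _
    have h1 := hgrow n
    have h3 : 0 ≤ |C| := abs_nonneg C
    have h4 : (1 : ℝ) * d ^ n ≤ (logHeight a - |C|) * d ^ n :=
      mul_le_mul_of_nonneg_right (by linarith) (by positivity)
    have h5 : s⁻¹ * (d : ℝ) ^ n ≤ 1 * d ^ n := mul_le_mul_of_nonneg_right hs1 (by positivity)
    linarith

/-- the return set of `a` -/
def RS {N : ℕ} (f : Fin (N + 1) → MvPolynomial (Fin (N + 1)) K) (S : Set (MvPolynomial (Fin (N + 1)) K))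
    (a : Fin (N + 1) → K) : Set ℕ := {n : ℕ | ∀ g ∈ S, aeval ((stepR f)^[n] a) g = 0}

/-- a finite union of arithmetic progressions `{a + k n}`, where `k = 0` is allowed -/
def FAP (A : Set ℕ) : Prop :=
  ∃ T : Finset (ℕ × ℕ), A = {n : ℕ | ∃ q ∈ T, ∃ m : ℕ, n = q.1 * m + q.2}

/-- some iterate maps the closed set given by `S` to itself -/
def Inv {N : ℕ} (f : Fin (N + 1) → MvPolynomial (Fin (N + 1)) K) (S : Set (MvPolynomial (Fin (N + 1)) K)) : Prop :=
  ∃ k, 0 < k ∧ ∀ g ∈ S,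
    aeval ((stepR f)^[k] fun l => Ideal.Quotient.mk (Ideal.span S) (X l : MvPolynomial (Fin (N + 1)) K)) g = 0

omit [AdmissibleAbsValues K] in
/-- invariant closed sets -/
theorem inv_FAP {N : ℕ} {f : Fin (N + 1) → MvPolynomial (Fin (N + 1)) K}
    {S : Set (MvPolynomial (Fin (N + 1)) K)} (h : Inv f S) (a : Fin (N + 1) → K) : FAP (RS f S a) := by
  obtain ⟨k, hk, hA⟩ := h
  apply progressions_of_upward _ k hk
  intro t ht g hg
  obtain ⟨ev, hev⟩ := exists_ev S ((stepR f)^[t] a) ht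
  have h1 := congrArg ev (hA g hg)
  rw [comp_aeval_apply, ← stepR_map f ev _ k, map_zero] at h1
  have h2 : (fun l => ev (Ideal.Quotient.mk (Ideal.span S) (X l : MvPolynomial (Fin (N + 1)) K))) =
    (stepR f)^[t] a := funext hev
  rw [h2, ← Function.iterate_add_apply, Nat.add_comm k t] at h1
  exact h1

omit [AdmissibleAbsValues K] in
/-- preperiodic points -/
theorem pp_FAP {N d : ℕ} {f : Fin (N + 1) → MvPolynomial (Fin (N + 1)) K} (hf : ∀ i, (f i).IsHomogeneous d)
    {S : Set (MvPolynomial (Fin (N + 1)) K)} (hS : ∀ g ∈ S, ∃ e : ℕ, g.IsHomogeneous e)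
    {a : Fin (N + 1) → K} (h : PP f a) : FAP (RS f S a) := by
  classical
  obtain ⟨m, n, hmn, c, hc, hcx⟩ := h
  set Z : Set ℕ := RS f S a with hZ
  have hper : ∀ t, ∃ c' : K, c' ≠ 0 ∧
      (stepR f)^[t + n] a = fun l => c' * (stepR f)^[t + m] a l := by
    intro t
    refine ⟨c ^ d ^ t, pow_ne_zero _ hc, ?_⟩
    rw [Function.iterate_add_apply, Function.iterate_add_apply, hcx]
    exact stepR_scale f d hf c _ t
  have hiff : ∀ t, t + n ∈ Z ↔ t + m ∈ Z := by
    intro t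
    obtain ⟨c', hc', h1⟩ := hper t
    simp only [hZ, RS, Set.mem_ofPred_eq]
    rw [h1]
    constructor
    · intro h g hg
      obtain ⟨e, he⟩ := hS g hg
      have h2 := h g hg
      rw [aeval_scale g e he] at h2
      exact (mul_eq_zero.1 h2).resolve_left (pow_ne_zero _ hc')
    · intro h g hg
      obtain ⟨e, he⟩ := hS g hg
      rw [aeval_scale g e he, h g hg, mul_zero]
  set k := n - m with hk
  have hiff' : ∀ t, m ≤ t → (t + k ∈ Z ↔ t ∈ Z) := by
    intro t ht
    have h1 := hiff (t - m)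
    have h2 : t - m + n = t + k := by omega
    have h3 : t - m + m = t := by omega
    rwa [h2, h3] at h1
  have hiter : ∀ s t, m ≤ t → (t + k * s ∈ Z ↔ t ∈ Z) := by
    intro s
    induction s with
    | zero => intro t _; simp
    | succ s ih =>
      intro t ht
      rw [Nat.mul_succ, ← Nat.add_assoc, hiff' _ (by omega), ih t ht]
  apply Pool.Agent.H936R2.exists_progressions Z m k (by omega)
  intro r hinf t
  obtain ⟨t₀, ht₀⟩ := hinf.nonempty
  rw [hiter t (m + r) (by omega)]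
  exact (hiter t₀ (m + r) (by omega)).1 ht₀

/-- the heights of the points of a curve which return after `k` steps are at most `C d^k` -/
theorem height_return [Infinite K] {N d : ℕ}
    (hd : 2 ≤ d) (f : Fin (N + 1) → MvPolynomial (Fin (N + 1)) K)
    (hf : ∀ i, (f i).IsHomogeneous d)
    (S : Set (MvPolynomial (Fin (N + 1)) K)) (hS : ∀ g ∈ S, ∃ e : ℕ, g.IsHomogeneous e)
    (hprime : (Ideal.span S).IsPrime)
    (htr : Algebra.trdeg K (MvPolynomial (Fin (N + 1)) K ⧸ Ideal.span S) ≤ 2) (hA : ¬ Inv f S) :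
    ∃ C : ℝ, 0 ≤ C ∧ ∀ (x : Fin (N + 1) → K) (k : ℕ), x ≠ 0 → 0 < k → (∀ g ∈ S, aeval x g = 0) →
      (∀ g ∈ S, aeval ((stepR f)^[k] x) g = 0) → logHeight x ≤ C * d ^ k := by
  classical
  set xb : Fin (N + 1) → MvPolynomial (Fin (N + 1)) K ⧸ Ideal.span S :=
    fun l => Ideal.Quotient.mk (Ideal.span S) (X l) with hxb
  unfold Inv at hA
  push Not at hA
  -- finitely many generators
  have hfg : (Ideal.span S).FG := IsNoetherian.noetherian _
  obtain ⟨S₀, hS₀S, hS₀⟩ := (Submodule.fg_span_iff_fg_span_finset_subset S).1 hfg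
  have hA' : ∀ k, 0 < k → ∃ g ∈ S₀, aeval ((stepR f)^[k] xb) g ≠ 0 := by
    intro k hk
    by_contra hcon
    push Not at hcon
    obtain ⟨g, hg, hgne⟩ := hA k hk
    apply hgne
    have h1 : g ∈ Ideal.span (S₀ : Set (MvPolynomial (Fin (N + 1)) K)) := by
      have : g ∈ Submodule.span (MvPolynomial (Fin (N + 1)) K) S := Submodule.subset_span hg
      rw [hS₀] at this
      exact this
    have h2 : Ideal.span (S₀ : Set (MvPolynomial (Fin (N + 1)) K)) ≤
        RingHom.ker (aeval ((stepR f)^[k] xb) : MvPolynomial (Fin (N + 1)) K →ₐ[K] _) := by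
      rw [Ideal.span_le]
      intro g hg
      exact hcon g hg
    exact h2 h1
  -- constants
  have hconst : ∀ q : (Fin (N + 1) × Fin (N + 1)) × S₀, ∃ C : ℝ, 1 ≤ C ∧
      ∀ (k : ℕ) (x : Fin (N + 1) → K), (∀ g ∈ S, aeval x g = 0) → x q.1.1 ≠ 0 →
        aeval ((stepR f)^[k] xb) (q.2 : MvPolynomial (Fin (N + 1)) K) ≠ 0 →
        aeval ((stepR f)^[k] x) (q.2 : MvPolynomial (Fin (N + 1)) K) = 0 →
        mulHeight₁ (x q.1.2 / x q.1.1) ≤ C ^ (d ^ k) := by
    rintro ⟨⟨i, j⟩, ⟨g, hg⟩⟩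
    obtain ⟨e, he⟩ := hS g (hS₀S hg)
    exact pair_bound S hS htr f d hd hf g e he i j
  choose Cq hCq1 hCq using hconst
  set C : ℝ := ∏ q, Cq q with hC
  have hCq0 : ∀ q, 0 ≤ Cq q := fun q => zero_le_one.trans (hCq1 q)
  have hC1 : 1 ≤ C := one_le_prod' _ _ hCq1
  have hCle : ∀ q, Cq q ≤ C := by
    intro q
    calc Cq q = Cq q * 1 := (mul_one _).symm
      _ ≤ Cq q * ∏ q' ∈ Finset.univ.erase q, Cq q' :=
        mul_le_mul_of_nonneg_left (one_le_prod' _ _ hCq1) (hCq0 q)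
      _ = C := Finset.mul_prod_erase _ _ (Finset.mem_univ q)
  have hlogC : 0 ≤ Real.log C := Real.log_nonneg hC1
  refine ⟨(N + 1) * Real.log C, by positivity, fun x k hx hk h1x h2x => ?_⟩
  obtain ⟨g, hg, hgne⟩ := hA' k hk
  obtain ⟨i, hi⟩ := Function.ne_iff.1 hx
  rw [Pi.zero_apply] at hi
  have h1 : ∀ j, mulHeight₁ (x j / x i) ≤ C ^ (d ^ k) := by
    intro j
    refine (hCq ((i, j), ⟨g, hg⟩) k x h1x hi hgne (h2x g (hS₀S hg))).trans ?_
    exact pow_le_pow_left₀ (hCq0 _) (hCle _) _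
  have h2 : mulHeight x ≤ (C ^ (d ^ k)) ^ (N + 1) := by
    refine (height_le_prod _ i hi).trans ?_
    calc ∏ j, mulHeight₁ (x j / x i)
        ≤ ∏ _j : Fin (N + 1), C ^ (d ^ k) :=
          Finset.prod_le_prod (fun j _ => mulHeight₁_nonneg _) fun j _ => h1 j
      _ = _ := by rw [Finset.prod_const, Finset.card_univ, Fintype.card_fin]
  rw [logHeight_eq_log_mulHeight]
  refine (Real.log_le_log (mulHeight_pos _) h2).trans ?_
  rw [Real.log_pow, Real.log_pow]
  push_cast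
  apply le_of_eq
  ring

/-- **the gap principle for irreducible curves, uniformly in the starting point** -/
theorem gap_unif [Infinite K] {N d : ℕ}
    (hd : 2 ≤ d) (f : Fin (N + 1) → MvPolynomial (Fin (N + 1)) K)
    (hf : ∀ i, (f i).IsHomogeneous d)
    (h0 : ∀ x : Fin (N + 1) → AlgebraicClosure K, (∀ i, aeval x (f i) = 0) → x = 0)
    (S : Set (MvPolynomial (Fin (N + 1)) K)) (hS : ∀ g ∈ S, ∃ e : ℕ, g.IsHomogeneous e)
    (hprime : (Ideal.span S).IsPrime)
    (htr : Algebra.trdeg K (MvPolynomial (Fin (N + 1)) K ⧸ Ideal.span S) ≤ 2) (hA : ¬ Inv f S)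
    {c : ℝ} (hc : 0 < c) (n₀ : ℕ) :
    ∃ B : ℕ, ∀ a : Fin (N + 1) → K, a ≠ 0 → (∀ n, n₀ ≤ n → c * d ^ n ≤ logHeight ((stepR f)^[n] a)) →
      Gap B (RS f S a) := by
  obtain ⟨C, hC, hret⟩ := height_return hd f hf S hS hprime htr hA
  obtain ⟨B, hB⟩ : ∃ B : ℕ, C / c < 2 ^ B := by
    obtain ⟨B, hB⟩ := pow_unbounded_of_one_lt (C / c) (one_lt_two)
    exact ⟨B, hB⟩
  refine ⟨B + 2 * n₀, fun a ha hgr m hm n hn hmn => ?_⟩
  by_cases hmn₀ : m < n₀
  · omega
  push Not at hmn₀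
  by_contra hcon
  push Not at hcon
  have h1 : logHeight ((stepR f)^[m] a) ≤ C * d ^ (n - m) := by
    refine hret _ (n - m) (stepR_ne_zero f h0 a ha m) (by omega) hm ?_
    rw [← Function.iterate_add_apply, Nat.sub_add_cancel hmn.le]
    exact hn
  have h2 := hgr m hmn₀
  have h3 : m = (n - m) + (B + (m - (n - m) - B)) := by omega
  have hdR : (2 : ℝ) ≤ d := by exact_mod_cast hd
  have h4 : c * (d : ℝ) ^ m ≤ C * d ^ (n - m) := h2.trans h1
  have h5 : (d : ℝ) ^ m = d ^ (n - m) * d ^ (B + (m - (n - m) - B)) := by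
    rw [← pow_add, ← h3]
  rw [h5] at h4
  have h6 : 0 < (d : ℝ) ^ (n - m) := by positivity
  have h7 : c * (d : ℝ) ^ (B + (m - (n - m) - B)) ≤ C := by
    have : (c * (d : ℝ) ^ (B + (m - (n - m) - B))) * d ^ (n - m) ≤ C * d ^ (n - m) := by
      calc _ = c * (d ^ (n - m) * (d : ℝ) ^ (B + (m - (n - m) - B))) := by ring
        _ ≤ _ := h4
    exact le_of_mul_le_mul_right this h6
  have h8 : (2 : ℝ) ^ B ≤ (d : ℝ) ^ (B + (m - (n - m) - B)) := by
    calc (2 : ℝ) ^ B ≤ (d : ℝ) ^ B := pow_le_pow_left₀ (by norm_num) hdR _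
      _ ≤ _ := pow_le_pow_right₀ (by linarith) (by omega)
  rw [div_lt_iff₀ hc] at hB
  nlinarith

end Pool.Agent.U922.CG
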